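import Pool.Agent.Q251.LA.Sel

/-!
# Choosing a balanced transversal with one element of a special colour
-/

set_option autoImplicit false

namespace Pool.Agent.Q251.LO

open Finset

variable {D W C : Type} [DecidableEq D] [DecidableEq W] [DecidableEq C]

/-- **The choice of a transversal**, one element of the colour `none`. -/
theorem selectO [Fintype C] (S : Finset D) (nb : D → W) (col : D → Option C) (m : ℕ) (hm : 2 ≤ m)
    (n : W → ℕ) (h1 : ∀ w, (S.filter (fun d => nb d = w)).card = m * n w)
    (h2 : ∀ c : C, (S.filter (fun d => col d = some c)).card = 2 * m)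
    (h0 : (S.filter (fun d => col d = none)).card = m) (τ : D → D) (r : D → Bool)
    (hS : ∀ d ∈ S, col d ≠ none → τ d ∈ S) (hττ : ∀ d ∈ S, col d ≠ none → τ (τ d) = d)
    (hcol : ∀ d ∈ S, col d ≠ none → col (τ d) = col d)
    (hr : ∀ d ∈ S, col d ≠ none → r (τ d) = !r d) :
    ∃ X ⊆ S, (∀ w, (X.filter (fun d => nb d = w)).card = n w) ∧
      (∀ c : C, (X.filter (fun d => col d = some c)).card = 2) ∧
      (X.filter (fun d => col d = none)).card = 1 ∧ ∀ d ∈ X, col d ≠ none → τ d ∉ X := by
  classical
  let T : Finset D := S.filter (fun d => col d = none)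
  have hT : ∀ d, d ∈ T ↔ d ∈ S ∧ col d = none := fun d => mem_filter
  let S' : Finset (D ⊕ D) := S.disjSum T
  let nb' : D ⊕ D → Option W := Sum.elim (fun d => some (nb d)) (fun _ => none)
  let n' : Option W → ℕ := fun w => w.elim 1 n
  let col' : D ⊕ D → Option C := Sum.elim col col
  let τ' : D ⊕ D → D ⊕ D := Sum.elim (fun d => if col d = none then Sum.inr d else Sum.inl (τ d))
    (fun d => Sum.inl d)
  let r' : D ⊕ D → Bool := Sum.elim (fun d => if col d = none then true else r d) (fun _ => false)
  have hin : ∀ (A B : Finset D) (p : D ⊕ D → Prop) [DecidablePred p],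
      ((A.disjSum B).filter p).card = (A.filter (fun d => p (Sum.inl d))).card +
        (B.filter (fun d => p (Sum.inr d))).card := by
    intro A B p _
    rw [card_filter, sum_disjSum, ← card_filter, ← card_filter]
  have h1' : ∀ w, (S'.filter (fun d => nb' d = w)).card = m * n' w := by
    intro w
    rw [hin]
    cases w with
    | none =>
      have h3 : (S.filter (fun d => nb' (Sum.inl d) = none)).card = 0 := by
        rw [card_eq_zero, filter_eq_empty_iff]
        intro d _ h4
        exact absurd h4 (by simp [nb'])
      have h4 : (T.filter (fun d => nb' (Sum.inr d) = none)) = T :=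
        filter_true_of_mem (fun d _ => rfl)
      rw [h3, h4, zero_add]
      show T.card = m * 1
      rw [mul_one]
      exact h0
    | some w =>
      have h3 : (T.filter (fun d => nb' (Sum.inr d) = some w)).card = 0 := by
        rw [card_eq_zero, filter_eq_empty_iff]
        intro d _ h4
        exact absurd h4 (by simp [nb'])
      have h4 : (S.filter (fun d => nb' (Sum.inl d) = some w)) = S.filter (fun d => nb d = w) :=
        filter_congr (fun d _ => by simp [nb'])
      rw [h3, h4, add_zero]
      exact h1 w
  have h2' : ∀ c, (S'.filter (fun d => col' d = c)).card = 2 * m := by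
    intro c
    rw [hin]
    cases c with
    | none =>
      have h4 : (T.filter (fun d => col' (Sum.inr d) = none)) = T :=
        filter_true_of_mem (fun d hd => ((hT d).1 hd).2)
      rw [h4]
      show (S.filter (fun d => col d = none)).card + T.card = 2 * m
      have h5 : T.card = m := h0
      omega
    | some c =>
      have h3 : (T.filter (fun d => col' (Sum.inr d) = some c)).card = 0 := by
        rw [card_eq_zero, filter_eq_empty_iff]
        intro d hd h4
        have h5 : col d = some c := h4
        rw [((hT d).1 hd).2] at h5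
        exact absurd h5 (by simp)
      rw [h3, add_zero]
      exact h2 c
  have hS' : ∀ d ∈ S', τ' d ∈ S' := by
    intro d hd
    rcases d with d | d
    · have hd' : d ∈ S := inl_mem_disjSum.1 hd
      by_cases h3 : col d = none
      · have h4 : τ' (Sum.inl d) = Sum.inr d := if_pos h3
        rw [h4]
        exact inr_mem_disjSum.2 ((hT d).2 ⟨hd', h3⟩)
      · have h4 : τ' (Sum.inl d) = Sum.inl (τ d) := if_neg h3
        rw [h4]
        exact inl_mem_disjSum.2 (hS d hd' h3)
    · have hd' : d ∈ T := inr_mem_disjSum.1 hd
      exact inl_mem_disjSum.2 ((hT d).1 hd').1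
  have hcn : ∀ d ∈ S, col d ≠ none → col (τ d) ≠ none := by
    intro d hd h3
    rw [hcol d hd h3]
    exact h3
  have hττ' : ∀ d ∈ S', τ' (τ' d) = d := by
    intro d hd
    rcases d with d | d
    · have hd' : d ∈ S := inl_mem_disjSum.1 hd
      by_cases h3 : col d = none
      · have h4 : τ' (Sum.inl d) = Sum.inr d := if_pos h3
        rw [h4]
        rfl
      · have h4 : τ' (Sum.inl d) = Sum.inl (τ d) := if_neg h3
        rw [h4]
        have h5 : τ' (Sum.inl (τ d)) = Sum.inl (τ (τ d)) := if_neg (hcn d hd' h3)
        rw [h5, hττ d hd' h3]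
    · have hd' : d ∈ T := inr_mem_disjSum.1 hd
      exact if_pos ((hT d).1 hd').2
  have hcol' : ∀ d ∈ S', col' (τ' d) = col' d := by
    intro d hd
    rcases d with d | d
    · have hd' : d ∈ S := inl_mem_disjSum.1 hd
      by_cases h3 : col d = none
      · have h4 : τ' (Sum.inl d) = Sum.inr d := if_pos h3
        rw [h4]
        rfl
      · have h4 : τ' (Sum.inl d) = Sum.inl (τ d) := if_neg h3
        rw [h4]
        exact hcol d hd' h3
    · rfl
  have hr' : ∀ d ∈ S', r' (τ' d) = !r' d := by
    intro d hd
    rcases d with d | d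
    · have hd' : d ∈ S := inl_mem_disjSum.1 hd
      by_cases h3 : col d = none
      · have h4 : τ' (Sum.inl d) = Sum.inr d := if_pos h3
        have h5 : r' (Sum.inl d) = true := if_pos h3
        rw [h4, h5]
        rfl
      · have h4 : τ' (Sum.inl d) = Sum.inl (τ d) := if_neg h3
        have h5 : r' (Sum.inl d) = r d := if_neg h3
        have h6 : r' (Sum.inl (τ d)) = r (τ d) := if_neg (hcn d hd' h3)
        rw [h4, h5, h6]
        exact hr d hd' h3
    · have hd' : d ∈ T := inr_mem_disjSum.1 hd
      have h5 : r' (Sum.inl d) = true := if_pos ((hT d).1 hd').2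
      show r' (Sum.inl d) = !false
      rw [h5]
      rfl
  obtain ⟨X', hX0, hX1, hX2, hX3⟩ := Pool.Agent.Q251.LA.select S' nb' col' m hm n' h1' h2' τ' r'
    hS' hττ' hcol' hr'
  let X : Finset D := S.filter (fun d => Sum.inl d ∈ X')
  let Y : Finset D := T.filter (fun d => Sum.inr d ∈ X')
  have hXY : X' = X.disjSum Y := by
    ext d
    rcases d with d | d
    · rw [inl_mem_disjSum]
      exact ⟨fun h => mem_filter.2 ⟨inl_mem_disjSum.1 (hX0 h), h⟩, fun h => (mem_filter.1 h).2⟩
    · rw [inr_mem_disjSum]
      exact ⟨fun h => mem_filter.2 ⟨inr_mem_disjSum.1 (hX0 h), h⟩, fun h => (mem_filter.1 h).2⟩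
  have hYT : ∀ d ∈ Y, col d = none := fun d hd => ((hT d).1 (mem_filter.1 hd).1).2
  refine ⟨X, filter_subset _ _, ?_, ?_, ?_, ?_⟩
  · intro w
    have h3 := hX1 (some w)
    rw [hXY, hin] at h3
    have h4 : (Y.filter (fun d => nb' (Sum.inr d) = some w)).card = 0 := by
      rw [card_eq_zero, filter_eq_empty_iff]
      intro d _ h4
      exact absurd h4 (by simp [nb'])
    have h5 : (X.filter (fun d => nb' (Sum.inl d) = some w)) = X.filter (fun d => nb d = w) :=
      filter_congr (fun d _ => by simp [nb'])
    rw [h4, h5, add_zero] at h3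
    exact h3
  · intro c
    have h3 := hX2 (some c)
    rw [hXY, hin] at h3
    have h4 : (Y.filter (fun d => col' (Sum.inr d) = some c)).card = 0 := by
      rw [card_eq_zero, filter_eq_empty_iff]
      intro d hd h4
      have h5 : col d = some c := h4
      rw [hYT d hd] at h5
      exact absurd h5 (by simp)
    rw [h4, add_zero] at h3
    exact h3
  · have h3 := hX2 none
    have h6 := hX1 none
    rw [hXY, hin] at h3 h6
    have h4 : (X.filter (fun d => nb' (Sum.inl d) = none)).card = 0 := by
      rw [card_eq_zero, filter_eq_empty_iff]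
      intro d _ h4
      exact absurd h4 (by simp [nb'])
    have h5 : (Y.filter (fun d => nb' (Sum.inr d) = none)) = Y :=
      filter_true_of_mem (fun d _ => rfl)
    have h7 : (Y.filter (fun d => col' (Sum.inr d) = none)) = Y :=
      filter_true_of_mem (fun d hd => hYT d hd)
    rw [h4, h5, zero_add] at h6
    rw [h7, h6] at h3
    have h8 : n' none = 1 := rfl
    rw [h8] at h3
    have h9 : (X.filter (fun d => col' (Sum.inl d) = none)).card =
      (X.filter (fun d => col d = none)).card := rfl
    omega
  · intro d hd h3 h4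
    have h5 : Sum.inl d ∈ X' := (mem_filter.1 hd).2
    have h6 : Sum.inl (τ d) ∈ X' := (mem_filter.1 h4).2
    have h7 := hX3 _ h5
    have h8 : τ' (Sum.inl d) = Sum.inl (τ d) := if_neg h3
    rw [h8] at h7
    exact h7 h6

end Pool.Agent.Q251.LO
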